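import Pool.Agent.Helper35.MS.StD

/-! # Project MS: module INI (the hypothesis implies the strict pinching) -/

set_option autoImplicit false

namespace Helper93.MS

open Helper35.MS Helper35.PI Helper35.PI2 Helper32.CL
open scoped ContDiff Manifold Topology ENNReal BigOperators

theorem hINI (hCE0 : StCE0) : StINI := by
  intro V _ _ m a b x s v hx hs hv hθ
  obtain ⟨φ, hc, hsn⟩ : ∃ φ : ℝ, Real.sqrt v * Real.cos φ = inner ℝ m a ∧
      Real.sqrt v * Real.sin φ = inner ℝ m b := by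
    refine ⟨Complex.arg ⟨inner ℝ m a, inner ℝ m b⟩, ?_, ?_⟩
    · have h1 : Real.sqrt v = ‖(⟨inner ℝ m a, inner ℝ m b⟩ : ℂ)‖ := by
        rw [Complex.norm_def, Complex.normSq_mk, hv]
        congr 1
        ring
      rw [h1, Complex.norm_mul_cos_arg]
    · have h1 : Real.sqrt v = ‖(⟨inner ℝ m a, inner ℝ m b⟩ : ℂ)‖ := by
        rw [Complex.norm_def, Complex.normSq_mk, hv]
        congr 1
        ring
      rw [h1, Complex.norm_mul_sin_arg]
  have hexp : ∀ θ : ℝ, ‖m + Real.cos θ • a + Real.sin θ • b‖ ^ 2 =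
      ‖m‖ ^ 2 + Real.cos θ ^ 2 * ‖a‖ ^ 2 + Real.sin θ ^ 2 * ‖b‖ ^ 2 +
        2 * Real.cos θ * inner ℝ m a + 2 * Real.sin θ * inner ℝ m b +
        2 * (Real.cos θ * Real.sin θ) * inner ℝ a b := by
    intro θ
    rw [← real_inner_self_eq_norm_sq, ← real_inner_self_eq_norm_sq, ← real_inner_self_eq_norm_sq,
      ← real_inner_self_eq_norm_sq]
    simp only [inner_add_left, inner_add_right, real_inner_smul_left, real_inner_smul_right]
    rw [real_inner_comm m a, real_inner_comm m b, real_inner_comm a b]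
    ring
  have h1 := hθ (φ + Real.pi / 4)
  have h2 := hθ (φ - Real.pi / 4)
  rw [hexp, Real.cos_add, Real.sin_add, Real.cos_pi_div_four, Real.sin_pi_div_four] at h1
  rw [hexp, Real.cos_sub, Real.sin_sub, Real.cos_pi_div_four, Real.sin_pi_div_four] at h2
  have h3 : Real.sqrt 2 ^ 2 = 2 := Real.sq_sqrt (by norm_num)
  have h4 : Real.sin φ ^ 2 + Real.cos φ ^ 2 = 1 := Real.sin_sq_add_cos_sq φ
  have h5 := hCE0.2.2 x (Real.sqrt v) (by rw [hx]; positivity) (Real.sqrt_nonneg _)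
  refine lt_of_lt_of_le ?_ h5
  rw [hx, hs]
  rw [← hc, ← hsn] at h1 h2
  set c := Real.cos φ with hcc
  set d := Real.sin φ with hdd
  set r := Real.sqrt 2 with hr
  set y := Real.sqrt v with hy
  set A := ‖a‖ ^ 2
  set B := ‖b‖ ^ 2
  set X := ‖m‖ ^ 2
  set I : ℝ := inner ℝ a b
  have h6 : 2 * X + (A + B) * ((r ^ 2 / 2) * (d ^ 2 + c ^ 2)) +
      2 * r * y * (d ^ 2 + c ^ 2) < 2 / 3 := by
    have h7 : 2 * X + (A + B) * ((r ^ 2 / 2) * (d ^ 2 + c ^ 2)) +
      2 * r * y * (d ^ 2 + c ^ 2) =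
      (X + (c * (r / 2) - d * (r / 2)) ^ 2 * A + (d * (r / 2) + c * (r / 2)) ^ 2 * B +
        2 * (c * (r / 2) - d * (r / 2)) * (y * c) + 2 * (d * (r / 2) + c * (r / 2)) * (y * d) +
        2 * ((c * (r / 2) - d * (r / 2)) * (d * (r / 2) + c * (r / 2))) * I) +
      (X + (c * (r / 2) + d * (r / 2)) ^ 2 * A + (d * (r / 2) - c * (r / 2)) ^ 2 * B +
        2 * (c * (r / 2) + d * (r / 2)) * (y * c) + 2 * (d * (r / 2) - c * (r / 2)) * (y * d) +
        2 * ((c * (r / 2) + d * (r / 2)) * (d * (r / 2) - c * (r / 2))) * I) := by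
      ring
    rw [h7]
    linarith
  rw [h4, h3] at h6
  linarith

end Helper93.MS
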