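import Pool.Agent.Helper35.MS.StJ

/-! # Project MS: module SGJ (the area density in a chart) -/

set_option autoImplicit false

namespace Helper93.MS

open Helper35.MS Helper35.PI Helper35.PI2 Helper32.CL Pool.Agent.Helper35.CL
open scoped ContDiff Manifold Topology ENNReal BigOperators
open MeasureTheory Set Filter

theorem hSGJ (hV1 : StV1) (hI2J : StI2J) (hI3J : StI3J) : StSGJ := by
  intro n N M _ _ _ J F hF p
  have key : ∀ y ∈ (chartAt (EE n) p).target, ∀ t ∈ J,
      0 < sgm (loc (n := n) F p t) y ∧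
      ContinuousAt (fun z : EE n × ℝ => sgm (loc (n := n) F p z.2) z.1) (y, t) := by
    intro y hy t ht
    have hsm : ContDiffAt ℝ ∞ (fun z : EE n × ℝ => F ((chartAt (EE n) p).symm z.1) z.2) (y, t) :=
      (hI2J n N M J F hF p).contDiffAt
        (((chartAt (EE n) p).open_target.prod hF.op).mem_nhds ⟨hy, ht⟩)
    have hL : LI (fun y' : EE n => (fun z : EE n × ℝ => F ((chartAt (EE n) p).symm z.1) z.2)
        (y', ((y, t) : EE n × ℝ).2)) ((y, t) : EE n × ℝ).1 := by
      have h := (hI3J n N M J F hF p ((chartAt (EE n) p).symm y) t ht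
        ((chartAt (EE n) p).map_target hy)).1
      rwa [(chartAt (EE n) p).right_inv hy] at h
    obtain ⟨h1, h2, -⟩ := hV1 n N (fun z : EE n × ℝ => F ((chartAt (EE n) p).symm z.1) z.2)
      (y, t) hsm hL
    exact ⟨h1, h2.continuousAt⟩
  exact ⟨fun y hy t ht => (key y hy t ht).1,
    fun z hz => (key z.1 hz.1 z.2 hz.2).2.continuousWithinAt⟩

end Helper93.MS
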